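import Pool.Agent.Y706.SB.Stm

/-! Project SB (helper706), jobs SB-C1 and SB-AR. -/

set_option autoImplicit false

namespace Pool.Agent.Y888.SB

open Polynomial Pool.Agent.Y706.SB

section

variable {L : Type*} [Field L] {p : ℕ} [Fact p.Prime] [CharP L p]

theorem mem_iff {x : L} : x ∈ (frobenius L p).fieldRange ↔ ∃ y, y ^ p = x := by
  rw [RingHom.mem_fieldRange]
  rfl

omit [Fact p.Prime] in
theorem nat_ne {n : ℕ} (h1 : 0 < n) (h2 : n < p) : (n : L) ≠ 0 := by
  rw [Ne, CharP.cast_eq_zero_iff L p]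
  exact Nat.not_dvd_of_pos_of_lt h1 h2

theorem C1_aux (f : L[X]) (x : L) (h1 : 1 ≤ f.natDegree) (h2 : f.natDegree < p)
    (hf : ∀ m, ∃ y, y ^ p = f.coeff m) (hx : ∃ y, y ^ p = f.eval x) : ∃ y, y ^ p = x := by
  set F := (frobenius L p).fieldRange with hF
  -- lift the polynomial
  have hl : f ∈ Polynomial.lifts F.subtype := by
    rw [Polynomial.lifts_iff_coeff_lifts]
    intro n
    obtain ⟨y, hy⟩ := hf n
    exact ⟨⟨f.coeff n, mem_iff.2 ⟨y, hy⟩⟩, rfl⟩
  obtain ⟨g, hg⟩ := (Polynomial.mem_lifts f).1 hl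
  set c : F := ⟨f.eval x, mem_iff.2 hx⟩ with hc
  set h : Polynomial F := g - C c with hh
  have hgd : g.natDegree = f.natDegree := by
    rw [← hg, Polynomial.natDegree_map]
  have hhd : h.natDegree = f.natDegree := by
    rw [hh, Polynomial.natDegree_sub_C, hgd]
  have hh0 : h ≠ 0 := by
    intro h0
    rw [h0, natDegree_zero] at hhd
    omega
  have hhx : aeval x h = 0 := by
    rw [hh, map_sub, aeval_C]
    have e1 : aeval x g = f.eval x := by
      rw [← hg, eval_map, aeval_def]
      rfl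
    rw [e1]
    exact sub_self _
  have hint : IsIntegral F x := (isAlgebraic_iff_isIntegral).1 ⟨h, hh0, hhx⟩
  set m := minpoly F x with hm
  have hmd : m.natDegree < p := lt_of_le_of_lt
    (Polynomial.natDegree_le_of_dvd (minpoly.dvd F x hhx) hh0) (by rw [hhd]; exact h2)
  have hmpos : 0 < m.natDegree := minpoly.natDegree_pos hint
  set xp : F := ⟨x ^ p, mem_iff.2 ⟨x, rfl⟩⟩ with hxp
  have hdvd : m ∣ X ^ p - C xp := by
    refine minpoly.dvd F x ?_
    rw [map_sub, map_pow, aeval_X, aeval_C]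
    exact sub_self _
  have hdvd2 : m.map F.subtype ∣ (X - C x) ^ p := by
    have h3 := Polynomial.map_dvd F.subtype hdvd
    rw [Polynomial.map_sub, Polynomial.map_pow, Polynomial.map_X, Polynomial.map_C] at h3
    have h4 : F.subtype xp = x ^ p := rfl
    rw [h4] at h3
    have h5 : (X - C x : L[X]) ^ p = X ^ p - C (x ^ p) := by
      rw [sub_pow_char, C_pow]
    rw [h5]
    exact h3
  obtain ⟨k, -, hk⟩ := (dvd_prime_pow (prime_X_sub_C x) p).1 hdvd2
  have hmm : (m.map F.subtype).Monic := (minpoly.monic hint).map _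
  have hk2 : m.map F.subtype = (X - C x) ^ k :=
    eq_of_monic_of_associated hmm ((monic_X_sub_C x).pow k) hk
  have hkd : k = m.natDegree := by
    have h3 := congrArg Polynomial.natDegree hk2
    rw [Polynomial.natDegree_map, natDegree_pow, natDegree_X_sub_C, mul_one] at h3
    exact h3.symm
  have hco : (m.map F.subtype).coeff (k - 1) = (-x) * k := by
    have e0 : (X - C x : L[X]) = X + C (-x) := by
      rw [C_neg, sub_eq_add_neg]
    rw [hk2, e0, coeff_X_add_C_pow, Nat.sub_sub_self (by omega), pow_one,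
      Nat.choose_symm_of_eq_add (show k = (k - 1) + 1 by omega), Nat.choose_one_right]
  have hmem : -x * k ∈ F := by
    rw [← hco, Polynomial.coeff_map]
    exact (m.coeff (k - 1)).2
  have hk0 : (k : L) ≠ 0 := nat_ne (p := p) (by omega) (by omega)
  have hxF : x ∈ F := by
    have h3 : x = -((-x * k) * (k : L)⁻¹) := by
      field_simp
    rw [h3]
    exact F.neg_mem (F.mul_mem hmem (F.inv_mem (natCast_mem F k)))
  exact mem_iff.1 hxF

theorem AR_aux (f : L[X]) (a b : L) (ha : a ≠ 0) (h1 : 2 ≤ f.natDegree) (h2 : f.natDegree < p)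
    (hf : ∀ m, ∃ y, y ^ p = f.coeff m) (hG : ∀ m, ∃ y, y ^ p = (aff a b f).coeff m) :
    (∃ y, y ^ p = a) ∧ ∃ y, y ^ p = b := by
  set F := (frobenius L p).fieldRange with hF
  set d := f.natDegree with hd
  have hfF : ∀ m, f.coeff m ∈ F := fun m => mem_iff.2 (hf m)
  have hGF : ∀ m, (aff a b f).coeff m ∈ F := fun m => mem_iff.2 (hG m)
  have hf0 : f.leadingCoeff ≠ 0 := by
    rw [leadingCoeff_ne_zero]
    rintro rfl
    simp at hd
    omega
  -- the coefficients
  have hco : ∀ n, 1 ≤ n → (aff a b f).coeff n = a⁻¹ * ((hasseDeriv n f).eval b * a ^ n) := by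
    intro n hn
    unfold aff
    rw [coeff_C_mul, coeff_sub, coeff_C_of_ne_zero (by omega), sub_zero]
    have e1 : f.comp (C a * X + C b) = (taylor b f).comp (C a * X) := by
      rw [taylor_apply, comp_assoc]
      simp
    rw [e1, comp_C_mul_X_coeff, taylor_coeff]
  have hcd := hco d (by omega)
  rw [hasseDeriv_natDegree_eq_C, eval_C] at hcd
  have had : a ^ (d - 1) ∈ F := by
    have e1 : a ^ (d - 1) = (aff a b f).coeff d * (f.leadingCoeff)⁻¹ := by
      rw [hcd]
      obtain ⟨e, he⟩ : ∃ e, d = e + 1 := ⟨d - 1, by omega⟩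
      rw [he, Nat.add_sub_cancel]
      field_simp
      ring
    rw [e1]
    exact F.mul_mem (hGF d) (F.inv_mem (hfF _))
  have hap : a ^ p ∈ F := mem_iff.2 ⟨a, rfl⟩
  have haF : a ∈ F := by
    have hcop : IsCoprime ((d - 1 : ℕ) : ℤ) (p : ℤ) := by
      rw [Nat.isCoprime_iff_coprime]
      exact (Nat.coprime_of_lt_prime (by omega) (by omega) (Fact.out : p.Prime)).symm
    obtain ⟨u, v, huv⟩ := hcop
    have e1 : a = (a ^ (d - 1)) ^ u * (a ^ p) ^ v := by
      rw [← zpow_natCast, ← zpow_natCast, ← zpow_mul, ← zpow_mul, ← zpow_add₀ ha,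
        mul_comm _ u, mul_comm _ v, huv, zpow_one]
    rw [e1]
    exact F.mul_mem (zpow_mem had u) (zpow_mem hap v)
  have hev : (hasseDeriv (d - 1) f).eval b = f.coeff (d - 1) + d * f.leadingCoeff * b := by
    have h3 : (hasseDeriv (d - 1) f).natDegree < 2 := by
      have := natDegree_hasseDeriv_le f (d - 1)
      omega
    rw [eval_eq_sum_range' h3, Finset.sum_range_succ, Finset.sum_range_one, hasseDeriv_coeff,
      hasseDeriv_coeff, zero_add, Nat.choose_self, show 1 + (d - 1) = d by omega,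
      Nat.choose_symm_of_eq_add (show d = (d - 1) + 1 by omega), Nat.choose_one_right]
    rw [leadingCoeff, ← hd]
    simp
  have hcd1 := hco (d - 1) (by omega)
  rw [hev] at hcd1
  have hbF' : f.coeff (d - 1) + d * f.leadingCoeff * b ∈ F := by
    have e1 : f.coeff (d - 1) + d * f.leadingCoeff * b =
        (aff a b f).coeff (d - 1) * a * (a ^ (d - 1))⁻¹ := by
      rw [hcd1]
      field_simp
    rw [e1]
    exact F.mul_mem (F.mul_mem (hGF _) haF) (F.inv_mem had)
  have hd0 : (d : L) ≠ 0 := nat_ne (p := p) (by omega) h2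
  have hbF : b ∈ F := by
    have e1 : b = (f.coeff (d - 1) + d * f.leadingCoeff * b - f.coeff (d - 1)) *
        ((d : L) * f.leadingCoeff)⁻¹ := by
      field_simp
      ring
    rw [e1]
    exact F.mul_mem (F.sub_mem hbF' (hfF _)) (F.inv_mem (F.mul_mem (natCast_mem F d) (hfF _)))
  exact ⟨mem_iff.1 haF, mem_iff.1 hbF⟩

end

universe w

theorem t_C1 : S_C1.{w} := by
  intro p _ L _ _ f x h1 h2 hf hx
  exact C1_aux f x h1 h2 hf hx

theorem t_AR : S_AR.{w} := by
  intro p _ L _ _ f a b ha h1 h2 hf hG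
  exact AR_aux f a b ha h1 h2 hf hG

end Pool.Agent.Y888.SB
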